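import Pool.Agent.helper70.BND.SpecH

/-!
# Project bnd (MP_376aaf_an), row PTR: concatenation of paths of words

The second path is run on `[3/4, 1]`, and the path rests in its first word on `(1/2, 3/4]`, so that this word is visited too.
-/

set_option autoImplicit false

open scoped Topology
open Finset

namespace Pool.Agent.BND.EX

/-- the concatenation of two functions on the unit interval -/
noncomputable def PTR_cc {Z : Type} (f g : ℝ → Z) (s : ℝ) : Z := if s ≤ 1 / 2 then f (2 * s) else g (max 0 (4 * s - 3))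

theorem PTR_map {Z Y : Type} (F : Z → Y) (f g : ℝ → Z) (s : ℝ) :
    F (PTR_cc f g s) = PTR_cc (fun x => F (f x)) (fun x => F (g x)) s := by
  unfold PTR_cc
  split_ifs <;> rfl

theorem PTR_cont {Z : Type} [TopologicalSpace Z] (f g : ℝ → Z) (hf : ContinuousOn f U) (hg : ContinuousOn g U)
    (h : f 1 = g 0) : ContinuousOn (PTR_cc f g) U := by
  have h01 : (0 : ℝ) ≤ 1 := zero_le_one
  have hf' : Continuous (Set.IccExtend h01 (U.restrict f)) := (continuousOn_iff_continuous_restrict.1 hf).Icc_extend'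
  have hg' : Continuous (Set.IccExtend h01 (U.restrict g)) := (continuousOn_iff_continuous_restrict.1 hg).Icc_extend'
  have hF : Continuous fun s : ℝ => if s ≤ 1 / 2 then Set.IccExtend h01 (U.restrict f) (2 * s) else
      Set.IccExtend h01 (U.restrict g) (4 * s - 3) := by
    refine Continuous.if_le (hf'.comp (continuous_const.mul continuous_id))
      (hg'.comp ((continuous_const.mul continuous_id).sub continuous_const)) continuous_id continuous_const ?_
    intro x hx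
    have hx' : x = 1 / 2 := hx
    subst hx'
    have e1 : Set.IccExtend h01 (U.restrict f) (2 * (1 / 2)) = f 1 := by
      rw [Set.IccExtend_of_mem h01 _ (by constructor <;> norm_num : (2 * (1 / 2) : ℝ) ∈ Set.Icc (0 : ℝ) 1)]
      change f (2 * (1 / 2)) = f 1
      norm_num
    have e2 : Set.IccExtend h01 (U.restrict g) (4 * (1 / 2) - 3) = g 0 := by
      rw [Set.IccExtend_of_le_left h01 _ (by norm_num)]
      rfl
    change Set.IccExtend h01 (U.restrict f) (2 * (1 / 2)) = Set.IccExtend h01 (U.restrict g) (4 * (1 / 2) - 3)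
    rw [e1, e2, h]
  refine hF.continuousOn.congr fun s hs => ?_
  change PTR_cc f g s = if s ≤ 1 / 2 then Set.IccExtend h01 (U.restrict f) (2 * s) else
      Set.IccExtend h01 (U.restrict g) (4 * s - 3)
  unfold PTR_cc
  split_ifs with h1
  · rw [Set.IccExtend_of_mem h01 _ (show (2 * s : ℝ) ∈ Set.Icc (0 : ℝ) 1 from ⟨by linarith [hs.1], by linarith⟩)]
    rfl
  · rcases le_total (4 * s - 3) 0 with h2 | h2
    · rw [Set.IccExtend_of_le_left h01 _ h2, max_eq_left h2]
      rfl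
    · rw [Set.IccExtend_of_mem h01 _ (show (4 * s - 3 : ℝ) ∈ Set.Icc (0 : ℝ) 1 from ⟨h2, by linarith [hs.2]⟩),
        max_eq_right h2]
      rfl

theorem PTR_all {Z : Type} (p : Z → Prop) (f g : ℝ → Z) (hf : ∀ s ∈ U, p (f s)) (hg : ∀ s ∈ U, p (g s)) :
    ∀ s ∈ U, p (PTR_cc f g s) := by
  intro s hs
  unfold PTR_cc
  split_ifs with h
  · exact hf _ ⟨by linarith [hs.1], by linarith⟩
  · exact hg _ ⟨le_max_left _ _, max_le zero_le_one (by linarith [hs.2])⟩

theorem PTR_zero {Z : Type} (f g : ℝ → Z) : PTR_cc f g 0 = f 0 := by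
  unfold PTR_cc
  rw [if_pos (by norm_num), mul_zero]

theorem PTR_one {Z : Type} (f g : ℝ → Z) : PTR_cc f g 1 = g 1 := by
  unfold PTR_cc
  rw [if_neg (by norm_num)]
  norm_num

theorem PTR_left {Z : Type} (f g : ℝ → Z) (s : ℝ) (hs : s ∈ U) : ∃ t ∈ U, PTR_cc f g t = f s := by
  refine ⟨s / 2, ⟨by linarith [hs.1], by linarith [hs.2]⟩, ?_⟩
  unfold PTR_cc
  rw [if_pos (by linarith [hs.2])]
  congr 1
  ring

theorem PTR_right {Z : Type} (f g : ℝ → Z) (s : ℝ) (hs : s ∈ U) : ∃ t ∈ U, PTR_cc f g t = g s := by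
  refine ⟨(s + 3) / 4, ⟨by linarith [hs.1], by linarith [hs.2]⟩, ?_⟩
  unfold PTR_cc
  rw [if_neg (by linarith [hs.1])]
  congr 1
  have e : 4 * ((s + 3) / 4) - 3 = s := by ring
  rw [e, max_eq_right hs.1]

theorem PTR : PTR_stmt := by
  rintro l Q w w' w'' d d' vs vs' ⟨γ₁, h1⟩ ⟨γ₂, h2⟩
  have h0 : (0 : ℝ) ∈ U := ⟨le_rfl, zero_le_one⟩
  refine ⟨PTR_cc γ₁ γ₂, ?_, ?_, ?_, ?_, ?_, ?_, ?_, ?_⟩
  · exact PTR_all Q γ₁ γ₂ h1.q h2.q
  · exact PTR_all (fun u => hw l.h u = hw l.h w) γ₁ γ₂ h1.ht fun s hs => (h2.ht s hs).trans h1.ht'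
  · exact h2.ht'.trans h1.ht'
  · intro Φ hΦ i hi
    have hi' : i < hw l.h w' := by
      rw [h1.ht']
      exact hi
    have e : (fun s => fw l.h Φ (PTR_cc γ₁ γ₂ s) i) =
        PTR_cc (fun s => fw l.h Φ (γ₁ s) i) (fun s => fw l.h Φ (γ₂ s) i) := by
      funext s
      exact PTR_map (fun u => fw l.h Φ u i) γ₁ γ₂ s
    rw [e]
    exact PTR_cont _ _ (h1.cts Φ hΦ i hi) (h2.cts Φ hΦ i hi') ((h1.at1 Φ hΦ i hi).trans (h2.at0 Φ hΦ i hi').symm)
  · intro Φ hΦ i hi
    rw [PTR_zero]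
    exact h1.at0 Φ hΦ i hi
  · intro Φ hΦ i hi
    rw [PTR_one]
    exact h2.at1 Φ hΦ i (by rw [h1.ht']; exact hi)
  · rintro a (ha | ha)
    · obtain ⟨s, hs, has⟩ := h1.vis a ha
      obtain ⟨t, ht, e⟩ := PTR_left γ₁ γ₂ s hs
      exact ⟨t, ht, by rw [e]; exact has⟩
    · obtain ⟨s, hs, has⟩ := h2.vis a ha
      obtain ⟨t, ht, e⟩ := PTR_right γ₁ γ₂ s hs
      exact ⟨t, ht, by rw [e]; exact has⟩
  · intro lam nn hlog
    obtain ⟨L1, c1, x1, a1, b1⟩ := h1.lg lam nn hlog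
    obtain ⟨L2, c2, x2, a2, b2⟩ := h2.lg lam nn hlog
    set D1 : ℤ := ∑ e ∈ range l.N, d e * nn e with hD1
    set D2 : ℤ := ∑ e ∈ range l.N, d' e * nn e with hD2
    have hper : ∀ z : ℂ, Complex.exp (z + 2 * Real.pi * Complex.I * ((D1 : ℤ) : ℂ)) = Complex.exp z := by
      intro z
      rw [Complex.exp_add, mul_comm (2 * Real.pi * Complex.I : ℂ) ((D1 : ℤ) : ℂ), Complex.exp_int_mul_two_pi_mul_I, mul_one]
    refine ⟨PTR_cc L1 fun s => L2 s + 2 * Real.pi * Complex.I * ((D1 : ℤ) : ℂ), ?_, ?_, ?_, ?_⟩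
    · refine PTR_cont _ _ c1 (c2.add continuousOn_const) ?_
      rw [b1, a2]
    · intro s hs
      unfold PTR_cc
      split_ifs with h
      · exact x1 _ ⟨by linarith [hs.1], by linarith⟩
      · rw [hper]
        exact x2 _ ⟨le_max_left _ _, max_le zero_le_one (by linarith [hs.2])⟩
    · rw [PTR_zero]
      exact a1
    · rw [PTR_one, b2]
      have e : (∑ e ∈ range l.N, (d e + d' e) * nn e : ℤ) = D1 + D2 := by
        rw [hD1, hD2, ← Finset.sum_add_distrib]
        exact Finset.sum_congr rfl fun e _ => by ring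
      rw [e]
      push_cast
      ring

end Pool.Agent.BND.EX
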